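import Mathlib
import Pool.Agent.helper82.SB.Shared

/-!
# SB-J: exposed edge (helper25)
-/

set_option autoImplicit false

namespace Pool.Agent.helper82.SB

open Matrix Filter Topology

namespace J

/-! ### Statements of the modules A, B, D, E2 -/

def StA : Prop := ∀ (K : PolyKnot), ∃ ε : ℝ, 0 < ε ∧ ∀ P' : ℤ → E3, (∀ i, P' (i + K.n) = P' i) →
    (∀ i, ‖P' i - K.P i‖ < ε) → ∃ L : PolyKnot, L.n = K.n ∧ L.P = P' ∧ Equivalent K L

def StB : Prop := ∀ (K : PolyKnot), ∃ δ : ℝ, 0 < δ ∧ ∀ α β : ℝ, 0 < α → α < δ → 0 < β → β < δ →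
    ∃ L : PolyKnot, L.n = K.n + 1 ∧
      L.P = cutP K.n K.P (K.P (K.n - 1) - α • edge K.P (K.n - 2))
        (K.P (K.n - 1) + β • edge K.P (K.n - 1)) ∧ Equivalent K L

def StD : Prop := ∀ (K : PolyKnot) (_ : ¬ Trivial K) (M : ℕ)
    (_ : ∀ v, maxima K.n K.P v ≤ M),
    ∃ L : PolyKnot, Equivalent K L ∧ 4 ≤ L.n ∧ Gen L.n L.P ∧ ∀ v, maxima L.n L.P v ≤ M

def StE2 : Prop := ∀ (n : ℕ) (_ : 4 ≤ n) (P : ℤ → E3) (_ : ∀ i, P (i + n) = P i)
    (_ : Gen n P) (M : ℕ) (_ : ∀ v, maxima n P v ≤ M) (α ρ : ℝ) (_ : 0 < α) (_ : α < 1)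
    (_ : 0 < ρ) (_ : α * ρ < 1)
    (_ : ∀ j k : ℤ, 0 ≤ j → j < k → k < n - 2 →
      det3 (edge P (n - 2) + ρ • edge P (n - 1)) (edge P j) (edge P k) ≠ 0),
    ∀ᶠ l : ℝ in 𝓝[>] 0, ∀ v, maxima (n + 1)
      (cutP n P (P (n - 1) - α • edge P (n - 2) + l • edge P (n - 3))
        (P (n - 1) + (α * ρ) • edge P (n - 1))) v ≤ M

/-! ### Small lemmas -/

theorem P_ne (K : PolyKnot) {i j : ℤ} (hi : 0 ≤ i) (hij : i < j) (hj : j < K.n) :
    K.P i ≠ K.P j := by
  intro h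
  by_cases h1 : j = i + 1
  · subst h1
    exact edge_ne_zero K i (by unfold edge; rw [h, sub_self])
  · by_cases h2 : j + 2 ≤ i + K.n
    · have := K.disj i j (by omega) h2
      rw [Set.disjoint_left] at this
      apply this (left_mem_segment ℝ _ _)
      rw [h]
      exact left_mem_segment ℝ _ _
    · have h3 : j + 1 = i + K.n := by omega
      apply edge_ne_zero K j
      unfold edge
      rw [h3, K.per, h, sub_self]

theorem Gen_rotate {n : ℕ} {P : ℤ → E3} (h : Gen n P) (k : ℤ) : Gen n (fun i => P (i + k)) := by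
  intro i j l h1 h2 h3
  have e : ∀ j : ℤ, edge (fun i => P (i + k)) j = edge P (j + k) := by
    intro j
    show P (j + 1 + k) - P (j + k) = P (j + k + 1) - P (j + k)
    rw [show j + 1 + k = j + k + 1 by ring]
  rw [e, e, e]
  exact h _ _ _ (by omega) (by omega) (by omega)

theorem cutP_lt (n : ℕ) (P : ℤ → E3) (x y : E3) {i : ℤ} (h0 : 0 ≤ i) (h1 : i < n - 1) :
    cutP n P x y i = P i := by
  unfold cutP
  have : i % ((n : ℤ) + 1) = i := Int.emod_eq_of_lt h0 (by omega)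
  rw [this, if_neg (by omega), if_neg (by omega)]

theorem cutP_x (n : ℕ) (hn : 1 ≤ n) (P : ℤ → E3) (x y : E3) :
    cutP n P x y (n - 1) = x := by
  unfold cutP
  have : ((n : ℤ) - 1) % ((n : ℤ) + 1) = n - 1 := Int.emod_eq_of_lt (by omega) (by omega)
  rw [this, if_pos rfl]

theorem cutP_y (n : ℕ) (P : ℤ → E3) (x y : E3) :
    cutP n P x y n = y := by
  unfold cutP
  have : ((n : ℤ)) % ((n : ℤ) + 1) = n := Int.emod_eq_of_lt (by omega) (by omega)
  rw [this, if_neg (by omega), if_pos rfl]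

theorem cutP_per (n : ℕ) (P : ℤ → E3) (x y : E3) (i : ℤ) :
    cutP n P x y (i + ((n + 1 : ℕ) : ℤ)) = cutP n P x y i := by
  unfold cutP
  have : (i + ((n + 1 : ℕ) : ℤ)) % ((n : ℤ) + 1) = i % ((n : ℤ) + 1) := by
    push_cast
    exact Int.add_emod_right ..
  rw [this]

theorem cutP_diff (n : ℕ) (P : ℤ → E3) (x x' y : E3) (i : ℤ) :
    cutP n P x' y i - cutP n P x y i = 0 ∨ cutP n P x' y i - cutP n P x y i = x' - x := by
  unfold cutP
  split_ifs
  · right; rfl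
  · left; simp
  · left; simp

theorem self_nonneg (v : E3) : 0 ≤ v ⬝ᵥ v :=
  Finset.sum_nonneg fun i _ => mul_self_nonneg (v i)

theorem det3_add_right_smul (a b c d : E3) (ρ : ℝ) :
    det3 (a + ρ • b) c d = det3 a c d + ρ * det3 b c d := by
  simp [det3]
  ring

end J

open J in
/-- SB-J, from A, B, D, E2. -/
theorem exists_exposed_of (hA : StA) (hB : StB) (hD : StD) (hE : StE2) (K : PolyKnot)
    (hK : ¬ Trivial K) (M : ℕ) (hM : ∀ v, maxima K.n K.P v ≤ M) :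
    ∃ L : PolyKnot, Equivalent K L ∧ (∀ v, maxima L.n L.P v ≤ M) ∧ Exposed L ∧ tor L ≠ 0 := by
  obtain ⟨L₀, e₀, n₀, g₀, b₀⟩ := hD K hK M hM
  -- a vertex of maximal norm
  obtain ⟨i₀, hi₀, hmax₀⟩ := Finset.exists_max_image (Finset.range L₀.n)
    (fun i : ℕ => L₀.P i ⬝ᵥ L₀.P i) ⟨0, by simp; omega⟩
  have hi₀' : i₀ < L₀.n := by simpa using hi₀
  have hmod : ∀ i : ℤ, ∃ j : ℕ, j < L₀.n ∧ L₀.P i = L₀.P j := by
    intro i
    have hp : (0 : ℤ) < L₀.n := by omega
    refine ⟨(i % L₀.n).toNat, ?_, ?_⟩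
    · have := Int.emod_lt_of_pos i hp
      omega
    · rw [Int.toNat_of_nonneg (Int.emod_nonneg _ (by omega))]
      have h1 : Function.Periodic L₀.P (L₀.n : ℤ) := L₀.per
      have h2 := h1.int_mul (i / L₀.n) (i % L₀.n)
      rw [← h2]
      congr 1
      have h3 := Int.emod_add_mul_ediv i L₀.n
      rw [mul_comm] at h3
      simpa using h3.symm
  obtain ⟨L, hLn, hLP, hLe, hLm⟩ := exists_rotate L₀ (i₀ - (L₀.n - 1))
  have hn4 : 4 ≤ L.n := by omega
  have hgen : Gen L.n L.P := by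
    have := Gen_rotate g₀ (i₀ - (L₀.n - 1))
    rw [hLn]
    have hf : L.P = fun i => L₀.P (i + (i₀ - (L₀.n - 1))) := funext hLP
    rw [hf]
    exact this
  have hbd : ∀ v, maxima L.n L.P v ≤ M := fun v => by rw [hLm]; exact b₀ v
  obtain ⟨n, hn⟩ : ∃ n : ℕ, n = L.n := ⟨_, rfl⟩
  obtain ⟨P, hPdef⟩ : ∃ P : ℤ → E3, P = L.P := ⟨_, rfl⟩
  have hmax : ∀ i : ℤ, P i ⬝ᵥ P i ≤ P (n - 1) ⬝ᵥ P (n - 1) := by
    intro i
    have h1 : P (n - 1) = L₀.P i₀ := by
      rw [hPdef, hLP, hn, hLn]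
      congr 1
      ring
    obtain ⟨j, hj, hj'⟩ := hmod (i + (i₀ - (L₀.n - 1)))
    have h2 : P i = L₀.P j := by rw [hPdef, hLP, hj']
    rw [h1, h2]
    exact hmax₀ j (by simpa using hj)
  have hper : ∀ i, P (i + n) = P i := by
    intro i
    rw [hPdef, hn]
    exact L.per i
  rw [← hn] at hn4
  have hne : ∀ i : ℤ, 0 ≤ i → i < n - 1 → P i ≠ P (n - 1) := by
    intro i h1 h2
    rw [hPdef, hn]
    rw [hn] at h2
    exact P_ne L h1 h2 (by omega)
  rw [← hn, ← hPdef] at hgen hbd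
  set r : E3 := P (n - 1) with hr
  set a : E3 := edge P (n - 2) with ha
  set b : E3 := edge P (n - 1) with hb
  set am : E3 := edge P (n - 3) with ham
  have hPn : P n = P 0 := by
    have := hper 0
    rwa [zero_add] at this
  have hPn2 : P (n - 2) = r - a := by
    rw [ha, hr]
    unfold edge
    rw [show (n : ℤ) - 2 + 1 = n - 1 by ring]
    abel
  have hP0 : P 0 = r + b := by
    rw [hb, hr]
    unfold edge
    rw [show (n : ℤ) - 1 + 1 = n by ring, hPn]
    abel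
  -- strict inequality at ν₀ = -r
  have hstrict : ∀ i : ℤ, 0 ≤ i → i < n - 1 → (-r) ⬝ᵥ r < (-r) ⬝ᵥ P i := by
    intro i h1 h2
    have h3 := hne i h1 h2
    have h4 := hmax i
    have h5 : 0 < (r - P i) ⬝ᵥ (r - P i) := by
      rcases (self_nonneg (r - P i)).lt_or_eq with h | h
      · exact h
      · exfalso
        have h6 := dotProduct_self_eq_zero.mp h.symm
        exact h3 (sub_eq_zero.mp h6).symm
    rw [sub_dotProduct, dotProduct_sub, dotProduct_sub, dotProduct_comm (P i) r] at h5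
    rw [neg_dotProduct, neg_dotProduct]
    linarith
  -- independence of a and b
  have hdet : ∀ j : ℤ, 0 ≤ j → j < n - 2 → det3 a b (edge P j) ≠ 0 := by
    intro j h1 h2
    have h3 := hgen (n - 2) (n - 1) (j + n) (by omega) (by omega) (by omega)
    rw [edge_per hper] at h3
    exact h3
  have hcyc : ∀ x y z : E3, det3 x y z = det3 y z x := by
    intro x y z
    simp only [det3]
    ring
  -- the finite set of bad directions
  set w : ℤ → ℤ → E3 := fun j k =>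
    det3 a (edge P j) (edge P k) • b - det3 b (edge P j) (edge P k) • a with hw
  have hwne : ∀ j k : ℤ, 0 ≤ j → j < k → k < n - 2 → w j k ≠ 0 := by
    intro j k h1 h2 h3 h0
    have h4 : det3 a (edge P j) (edge P k) ≠ 0 := by
      have := hgen j k (n - 2) h2 (by omega) (by omega)
      rw [hcyc] at this
      rw [hcyc] at this
      exact this
    have h5 : det3 (w j k) a (edge P j) = 0 := by
      rw [h0]
      simp [det3]
    have h6 : det3 (w j k) a (edge P j) = - (det3 a (edge P j) (edge P k) * det3 a b (edge P j)) := by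
      simp only [hw, det3, Pi.sub_apply, Pi.smul_apply, smul_eq_mul]
      ring
    rw [h6] at h5
    have := mul_ne_zero h4 (hdet j h1 (by omega))
    exact this (by linarith)
  set S : Set E3 := (fun p : ℤ × ℤ => w p.1 p.2) '' (Set.Icc 0 (n : ℤ) ×ˢ Set.Icc 0 (n : ℤ)) with hS
  have hSf : S.Finite := by
    apply Set.Finite.image
    exact (Set.finite_Icc _ _).prod (Set.finite_Icc _ _)
  -- choose ν
  have hopen : ∀ᶠ ν : E3 in 𝓝 (-r), ∀ i ∈ Finset.Icc (0:ℤ) (n - 2), ν ⬝ᵥ r < ν ⬝ᵥ P i := by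
    rw [Filter.eventually_all_finset]
    intro i hi
    rw [Finset.mem_Icc] at hi
    have h1 := hstrict i hi.1 (by omega)
    have hc : Continuous fun ν : E3 => ν ⬝ᵥ P i - ν ⬝ᵥ r :=
      (continuous_dot_left _).sub (continuous_dot_left _)
    have := hc.continuousAt.eventually (lt_mem_nhds (sub_pos.mpr h1))
    filter_upwards [this] with ν hν
    exact sub_pos.mp hν
  obtain ⟨ν, hν1, hν2⟩ := (dense_generic S hSf).exists_mem_open isOpen_interior
    (⟨-r, mem_interior_iff_mem_nhds.mpr hopen⟩ :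
      (interior {ν : E3 | ∀ i ∈ Finset.Icc (0:ℤ) (n - 2), ν ⬝ᵥ r < ν ⬝ᵥ P i}).Nonempty)
  have hν3 : ∀ i : ℤ, 0 ≤ i → i < n - 1 → ν ⬝ᵥ r < ν ⬝ᵥ P i := by
    intro i h1 h2
    exact interior_subset hν2 i (Finset.mem_Icc.mpr ⟨h1, by omega⟩)
  have hνa : ν ⬝ᵥ a < 0 := by
    have := hν3 (n - 2) (by omega) (by omega)
    rw [hPn2, dotProduct_sub] at this
    linarith
  have hνb : 0 < ν ⬝ᵥ b := by
    have := hν3 0 (by omega) (by omega)
    rw [hP0, dotProduct_add] at this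
    linarith
  set ρ : ℝ := -(ν ⬝ᵥ a) / (ν ⬝ᵥ b) with hρ
  have hρ0 : 0 < ρ := div_pos (by linarith) hνb
  have hρb : ρ * (ν ⬝ᵥ b) = -(ν ⬝ᵥ a) := by
    rw [hρ]
    field_simp
  have hbad : ∀ j k : ℤ, 0 ≤ j → j < k → k < n - 2 →
      det3 (a + ρ • b) (edge P j) (edge P k) ≠ 0 := by
    intro j k h1 h2 h3 h0
    have h4 := hν1 (w j k) ⟨(j, k), ⟨⟨h1, by show j ≤ n; omega⟩, ⟨by show 0 ≤ k; omega, by show k ≤ n; omega⟩⟩, rfl⟩
      (hwne j k h1 h2 h3)
    apply h4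
    rw [det3_add_right_smul] at h0
    simp only [hw, dotProduct_sub, dotProduct_smul, smul_eq_mul]
    have : (ν ⬝ᵥ b) * (det3 a (edge P j) (edge P k) + ρ * det3 b (edge P j) (edge P k)) = 0 := by
      rw [h0, mul_zero]
    have h5 : (ν ⬝ᵥ b) * (ρ * det3 b (edge P j) (edge P k)) =
        -(ν ⬝ᵥ a) * det3 b (edge P j) (edge P k) := by
      rw [← hρb]; ring
    linarith
  -- choose α
  obtain ⟨δ, hδ, hcut⟩ := hB L
  have hα : ∀ᶠ α : ℝ in 𝓝 0, (∀ i ∈ Finset.Icc (0:ℤ) (n - 2), ν ⬝ᵥ r - α * (ν ⬝ᵥ a) < ν ⬝ᵥ P i) ∧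
      α < δ ∧ α * ρ < δ ∧ α < 1 ∧ α * ρ < 1 := by
    have h1 : ∀ᶠ α : ℝ in 𝓝 0, ∀ i ∈ Finset.Icc (0:ℤ) (n - 2),
        ν ⬝ᵥ r - α * (ν ⬝ᵥ a) < ν ⬝ᵥ P i := by
      rw [Filter.eventually_all_finset]
      intro i hi
      rw [Finset.mem_Icc] at hi
      have h2 := hν3 i hi.1 (by omega)
      have hc : Continuous fun α : ℝ => ν ⬝ᵥ r - α * (ν ⬝ᵥ a) := by fun_prop
      have := hc.continuousAt (x := 0)
      unfold ContinuousAt at this
      exact this.eventually (gt_mem_nhds (by simpa using h2))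
    have h2 : ∀ c : ℝ, 0 < c → ∀ᶠ α : ℝ in 𝓝 0, α < c := fun c hc => gt_mem_nhds hc
    have h3 : ∀ c : ℝ, 0 < c → ∀ᶠ α : ℝ in 𝓝 0, α * ρ < c := by
      intro c hc
      have hcc : Continuous fun α : ℝ => α * ρ := by fun_prop
      exact hcc.continuousAt.eventually (gt_mem_nhds (by simpa using hc))
    filter_upwards [h1, h2 δ hδ, h3 δ hδ, h2 1 one_pos, h3 1 one_pos] with α a1 a2 a3 a4 a5
    exact ⟨a1, a2, a3, a4, a5⟩
  obtain ⟨α, ⟨hα1, hα2, hα3, hα4, hα5⟩, hα0⟩ :=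
    ((hα.filter_mono nhdsWithin_le_nhds).and (self_mem_nhdsWithin (s := Set.Ioi (0:ℝ)))).exists
  replace hα0 : 0 < α := hα0
  obtain ⟨L₂, hn₂, hP₂, he₂⟩ := hcut α (α * ρ) hα0 hα2 (by positivity) hα3
  rw [← hn, ← hPdef] at hP₂
  rw [← hn] at hn₂
  obtain ⟨ε, hε, heps⟩ := hA L₂
  have hEE := hE n hn4 P hper hgen M hbd α ρ hα0 hα4 hρ0 hα5 hbad
  set x0 : E3 := r - α • a with hx0
  set y0 : E3 := r + (α * ρ) • b with hy0
  -- tilt direction
  have hab0 : a + ρ • b ≠ 0 := by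
    intro h0
    have h1 := hdet 0 le_rfl (by omega)
    have h2 : det3 (a + ρ • b) b (edge P 0) = det3 a b (edge P 0) := by
      simp only [det3, Pi.add_apply, Pi.smul_apply, smul_eq_mul]
      ring
    rw [h0] at h2
    apply h1
    rw [← h2]
    simp [det3]
  set c : E3 := a + ρ • b with hc
  have hcc : 0 < c ⬝ᵥ c := by
    rcases (self_nonneg c).lt_or_eq with h | h
    · exact h
    · exact absurd (dotProduct_self_eq_zero.mp h.symm) hab0
  have hνc : ν ⬝ᵥ c = 0 := by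
    rw [hc, dotProduct_add, dotProduct_smul, smul_eq_mul, hρb]
    ring
  -- ν' as a function of l
  set gl : ℝ → E3 := fun l => α • c - l • am with hgl
  have hglc : Continuous fun l => c ⬝ᵥ gl l := by
    simp only [hgl, dotProduct_sub, dotProduct_smul]
    fun_prop
  have hgl0 : 0 < c ⬝ᵥ gl 0 := by
    simp only [hgl, zero_smul, sub_zero, dotProduct_smul, smul_eq_mul]
    positivity
  have hev1 : ∀ᶠ l : ℝ in 𝓝 0, 0 < c ⬝ᵥ gl l := hglc.continuousAt.eventually (lt_mem_nhds hgl0)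
  set sl : ℝ → ℝ := fun l => -(ν ⬝ᵥ gl l) / (c ⬝ᵥ gl l) with hsl
  have hslc : ContinuousAt sl 0 := by
    apply ContinuousAt.div
    · have : Continuous fun l => -(ν ⬝ᵥ gl l) := by
        simp only [hgl, dotProduct_sub, dotProduct_smul]
        fun_prop
      exact this.continuousAt
    · exact hglc.continuousAt
    · exact hgl0.ne'
  have hsl0 : sl 0 = 0 := by
    simp only [hsl, hgl, zero_smul, sub_zero, dotProduct_smul, smul_eq_mul, hνc]
    simp
  have hev2 : ∀ᶠ l : ℝ in 𝓝 0, ∀ i ∈ Finset.Icc (0:ℤ) (n - 2),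
      (ν + sl l • c) ⬝ᵥ y0 < (ν + sl l • c) ⬝ᵥ P i := by
    rw [Filter.eventually_all_finset]
    intro i hi
    have h1 := hα1 i hi
    have h2 : ν ⬝ᵥ y0 < ν ⬝ᵥ P i := by
      rw [hy0, dotProduct_add, dotProduct_smul, smul_eq_mul]
      have : α * ρ * (ν ⬝ᵥ b) = - (α * (ν ⬝ᵥ a)) := by
        rw [mul_assoc, hρb]; ring
      linarith
    have hcont : ContinuousAt (fun l => (ν + sl l • c) ⬝ᵥ P i - (ν + sl l • c) ⬝ᵥ y0) 0 := by
      simp only [add_dotProduct, smul_dotProduct, smul_eq_mul]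
      fun_prop
    have h3 : 0 < (ν + sl 0 • c) ⬝ᵥ P i - (ν + sl 0 • c) ⬝ᵥ y0 := by
      rw [hsl0, zero_smul, add_zero]
      linarith
    filter_upwards [hcont.eventually (lt_mem_nhds h3)] with l hl
    linarith
  have hev3 : ∀ᶠ l : ℝ in 𝓝 0, ‖l • am‖ < ε := by
    have hcont : Continuous fun l : ℝ => ‖l • am‖ := by fun_prop
    exact hcont.continuousAt.eventually (gt_mem_nhds (by simpa using hε))
  obtain ⟨l, ⟨hl1, hl2, hl3⟩, hl4, hl5⟩ :=
    ((((hev1.and (hev2.and hev3)).filter_mono nhdsWithin_le_nhds).and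
      (hEE.and (self_mem_nhdsWithin (s := Set.Ioi (0:ℝ))))).exists)
  replace hl5 : 0 < l := hl5
  -- the perturbed polygon
  set P' : ℤ → E3 := cutP n P (x0 + l • am) y0 with hP'
  have hper' : ∀ i, P' (i + L₂.n) = P' i := by
    intro i
    rw [hn₂]
    exact cutP_per n P _ _ i
  obtain ⟨L₃, hn₃, hP₃, he₃⟩ := heps P' hper' (by
    intro i
    rw [hP₂, hP']
    rcases cutP_diff n P x0 (x0 + l • am) y0 i with h | h
    · rw [h]; simpa using hε
    · rw [h, add_sub_cancel_left]; exact hl3)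
  obtain ⟨L₄, hn₄, hP₄, he₄, hm₄⟩ := exists_rotate L₃ n
  have hn4' : L₄.n = n + 1 := by omega
  have hP4 : ∀ i, L₄.P i = P' (i + n) := by
    intro i
    rw [hP₄, hP₃]
  have hy : L₄.P 0 = y0 := by
    rw [hP4, zero_add, hP', cutP_y]
  have hx : L₄.P (-1) = x0 + l • am := by
    rw [hP4, show (-1 : ℤ) + n = n - 1 by ring, hP', cutP_x n (by omega)]
  have hi : ∀ i : ℤ, 0 < i → i < n → L₄.P i = P (i - 1) := by
    intro i h1 h2
    rw [hP4, show (i : ℤ) + n = (i - 1) + ((n + 1 : ℕ) : ℤ) by push_cast; ring, hP', cutP_per,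
      cutP_lt n P _ _ (by omega) (by omega)]
  have hm2 : L₄.P (-2) = r - a := by
    rw [hP4, show (-2 : ℤ) + n = n - 2 by ring, hP', cutP_lt n P _ _ (by omega) (by omega), hPn2]
  refine ⟨L₄, (((e₀.trans hLe).trans he₂).trans he₃).trans he₄, ?_, ?_, ?_⟩
  · intro v
    rw [hm₄, hn₃, hn₂, hP₃]
    exact hl4 v
  · refine ⟨by omega, ν + sl l • c, ?_, ?_⟩
    · have h1 : edge L₄.P (-1) = gl l := by
        unfold edge
        rw [show (-1 : ℤ) + 1 = 0 by ring, hy, hx, hy0, hx0, hgl, hc]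
        simp only [smul_add, smul_smul]
        abel
      rw [h1, add_dotProduct, smul_dotProduct, smul_eq_mul]
      rw [hsl]
      field_simp
      ring
    · intro i h1 h2
      rw [hn4'] at h2
      push_cast at h2
      rw [hy, hi i h1 (by omega)]
      exact hl2 (i - 1) (Finset.mem_Icc.mpr ⟨by omega, by omega⟩)
  · unfold tor
    have h1 : edge L₄.P (-2) = (1 - α) • a + l • am := by
      unfold edge
      rw [show (-2 : ℤ) + 1 = -1 by ring, hx, hm2, hx0]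
      rw [sub_smul, one_smul]
      abel
    have h2 : edge L₄.P (-1) = α • (a + ρ • b) - l • am := by
      unfold edge
      rw [show (-1 : ℤ) + 1 = 0 by ring, hy, hx, hy0, hx0]
      simp only [smul_add, smul_smul]
      abel
    have h3 : edge L₄.P 0 = (1 - α * ρ) • b := by
      unfold edge
      rw [zero_add, hy, hi 1 one_pos (by omega), show (1 : ℤ) - 1 = 0 by ring, hP0, hy0]
      rw [sub_smul, one_smul]
      abel
    rw [h1, h2, h3]
    have h4 : det3 ((1 - α) • a + l • am) (α • (a + ρ • b) - l • am) ((1 - α * ρ) • b) =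
        (1 - α * ρ) * (l * det3 am a b) := by
      simp only [det3, Pi.add_apply, Pi.sub_apply, Pi.smul_apply, smul_eq_mul]
      ring
    rw [h4]
    have h5 : det3 am a b ≠ 0 := hgen (n - 3) (n - 2) (n - 1) (by omega) (by omega) (by omega)
    have h6 : (1 - α * ρ) ≠ 0 := by linarith [hα5] |> fun (h : (1 - α * ρ) > 0) => h.ne'
    exact mul_ne_zero h6 (mul_ne_zero hl5.ne' h5)

end Pool.Agent.helper82.SB
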